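import Pool.Agent.W459.IW.Ptw
import Pool.Agent.W488.IX.Stm

set_option autoImplicit false

namespace Pool.Agent.W347.IX.Ptx

open Pool.Agent.W488.IW Pool.Agent.W488.IX Pool.Agent.W459.IW.Ptw

theorem lin {p w : ℝ} (hp : 2 < p) (hw0 : 0 ≤ w) (hw1 : w ≤ 1) :
    cp p * (2 ^ (p - 2) * ((p - 1) - (3 - p) * w)) ≤ (p - 1) ^ p - w := by
  have h3 : (p - 1) ^ p = (p - 1) ^ (p - 1) * (p - 1) := by
    rw [← Real.rpow_add_one (by linarith)]
    congr 1
    ring
  have h4 := cp_mul (p := p) (by linarith)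
  have hc := cp_pos (p := p) (by linarith)
  have h5 : (2 : ℝ) ^ (p - 2) ≤ p ^ (p - 2) :=
    Real.rpow_le_rpow (by norm_num) hp.le (by linarith)
  have a0 : cp p * (2 ^ (p - 2) * (p - 1)) ≤ (p - 1) ^ p := by
    rw [h3, ← h4]
    have h6 := mul_le_mul_of_nonneg_left h5 hc.le
    have h7 := mul_le_mul_of_nonneg_right h6 (show (0 : ℝ) ≤ p - 1 by linarith)
    linarith
  have h8 : (2 : ℝ) ^ (p - 1) = 2 ^ (p - 2) * 2 := by
    rw [← Real.rpow_add_one (by norm_num)]
    congr 1
    ring
  have a1 : cp p * (2 ^ (p - 2) * (2 * p - 4)) ≤ (p - 1) ^ p - 1 := by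
    have h9 := BB_nonneg (p := p) (t := 1) (by linarith) (by norm_num)
    unfold BB at h9
    rw [Real.one_rpow, show (1 : ℝ) + 1 = 2 by norm_num, h8] at h9
    have : cp p * (2 ^ (p - 2) * (2 * p - 4)) = cp p * ((p - 1 - 1) * (2 ^ (p - 2) * 2)) := by
      ring
    linarith
  have b0 := mul_le_mul_of_nonneg_left a0 (show (0 : ℝ) ≤ 1 - w by linarith)
  have b1 := mul_le_mul_of_nonneg_left a1 hw0
  have e : cp p * (2 ^ (p - 2) * ((p - 1) - (3 - p) * w)) =
      (1 - w) * (cp p * (2 ^ (p - 2) * (p - 1))) + w * (cp p * (2 ^ (p - 2) * (2 * p - 4))) := by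
    ring
  rw [e]
  linarith

/-- the sharp pointwise inequality for all `p > 2` -/
theorem main : S_PTX := by
  intro p x y hp hx hy
  have hp2 : 2 ≤ p := hp.le
  show cp p * Wq p x y ≤ (p - 1) ^ p * x ^ p - y ^ p
  rcases hx.lt_or_eq with hx0 | hx0
  · obtain ⟨t, ht⟩ : ∃ t, t = y / x := ⟨_, rfl⟩
    have ht0 : 0 ≤ t := by rw [ht]; exact div_nonneg hy hx
    have hyt : y = x * t := by
      rw [ht]
      field_simp
    have hy2 : y ^ p = x ^ p * t ^ p := by
      rw [hyt, Real.mul_rpow hx ht0]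
    have hxp : 0 ≤ x ^ p := Real.rpow_nonneg hx p
    by_cases h : y < x
    · have ht1 : t < 1 := by
        rw [ht, div_lt_one hx0]
        exact h
      have hW : Wq p x y = x ^ p * (2 ^ (p - 2) * ((p - 1) - (3 - p) * t ^ p)) := by
        unfold Wq
        rw [if_pos h, hy2]
        ring
      rw [hW, hy2]
      have hk := lin (p := p) (w := t ^ p) hp (Real.rpow_nonneg ht0 _)
        (Real.rpow_le_one ht0 ht1.le (by linarith))
      have h2 := mul_le_mul_of_nonneg_left hk hxp
      linarith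
    · have hW : Wq p x y = x ^ p * ((p - 1 - t) * (1 + t) ^ (p - 1)) := by
        unfold Wq
        rw [if_neg h]
        have e1 : x + y = x * (1 + t) := by rw [hyt]; ring
        have e3 : x ^ p = x ^ (p - 1) * x := by
          rw [← Real.rpow_add_one hx0.ne']
          congr 1
          ring
        rw [e1, Real.mul_rpow hx (by linarith), hyt, e3]
        ring
      rw [hW, hy2]
      have h1 := BB_nonneg hp2 ht0
      unfold BB at h1
      have h2 := mul_nonneg hxp h1
      linarith
  · rw [← hx0]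
    unfold Wq
    rw [if_neg (not_lt.2 hy), Real.zero_rpow (by linarith), zero_add]
    have e1 : ((p - 1) * 0 - y) * y ^ (p - 1) = -y ^ p := by
      rcases hy.lt_or_eq with h | h
      · have e3 : y ^ p = y ^ (p - 1) * y := by
          rw [← Real.rpow_add_one h.ne']
          congr 1
          ring
        rw [e3]
        ring
      · rw [← h, Real.zero_rpow (by linarith), Real.zero_rpow (by linarith)]
        ring
    rw [e1]
    have h1 := one_le_cp hp2
    have h2 : 0 ≤ y ^ p := Real.rpow_nonneg hy _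
    nlinarith

end Pool.Agent.W347.IX.Ptx
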